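import Pool.Agent.Run7.h676.NI.Iface

/-!
# Project NI, piece GENA: generation by fixed points of subgroups of index `p`
-/

set_option autoImplicit false

open scoped commutatorElement

namespace Pool.Agent.Run7.h676.NI

open Finset

/-- a `p`-periodic function, multiplied index -/
theorem gena_reindex {M : Type} [CommMonoid M] (p j : ℕ) (hp : p.Prime) (hj0 : 0 < j) (hjp : j < p)
    (f : ℕ → M) (hf : ∀ k, f (k % p) = f k) :
    ∏ i ∈ range p, f (i * j) = ∏ k ∈ range p, f k := by
  have hinj : Set.InjOn (fun i => i * j % p) (range p : Finset ℕ) := by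
    intro a ha b hb hab
    have ha' : a < p := by simpa using ha
    have hb' : b < p := by simpa using hb
    have h1 : a * j ≡ b * j [MOD p] := hab
    have hc : Nat.gcd p j = 1 := Nat.coprime_of_lt_prime hj0.ne' hjp hp
    have h2 := Nat.ModEq.cancel_right_of_coprime hc h1
    unfold Nat.ModEq at h2
    rwa [Nat.mod_eq_of_lt ha', Nat.mod_eq_of_lt hb'] at h2
  have himg : (range p).image (fun i => i * j % p) = range p := by
    apply Finset.eq_of_subset_of_card_le
    · intro k hk
      obtain ⟨i, _, rfl⟩ := mem_image.1 hk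
      exact mem_range.2 (Nat.mod_lt _ hp.pos)
    · rw [Finset.card_image_of_injOn hinj]
  have h2 : ∏ k ∈ range p, f k = ∏ k ∈ (range p).image (fun i => i * j % p), f k := by
    rw [himg]
  rw [h2, Finset.prod_image hinj]
  exact Finset.prod_congr rfl fun i _ => (hf _).symm

/-- shift by one -/
theorem gena_shift {M : Type} [CommMonoid M] (p : ℕ) (f : ℕ → M) (h : f p = f 0) :
    ∏ i ∈ range p, f (i + 1) = ∏ i ∈ range p, f i := by
  have h1 := Finset.prod_range_succ f p
  have h2 := Finset.prod_range_succ' f p
  rcases Nat.eq_zero_or_pos p with h0 | h0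
  · subst h0; simp
  · obtain ⟨q, rfl⟩ : ∃ q, p = q + 1 := ⟨p - 1, by omega⟩
    rw [Finset.prod_range_succ (fun i => f (i + 1)), h, Finset.prod_range_succ' f q]

theorem gena_index {V : Type} [CommGroup V] [Finite V] (p : ℕ) (hp : p.Prime)
    (hV : ∀ v : V, v ^ p = 1) (A : Subgroup V) (g : V) (hg : g ∉ A)
    (h : A ⊔ Subgroup.zpowers g = ⊤) : A.index = p := by
  have : Fact p.Prime := ⟨hp⟩
  have h1 : (g : V ⧸ A) ≠ 1 := by
    intro h1
    exact hg ((QuotientGroup.eq_one_iff g).1 h1)
  have h2 : orderOf (g : V ⧸ A) = p := by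
    apply orderOf_eq_prime _ h1
    rw [← QuotientGroup.mk_pow, hV]; rfl
  have h3 : Subgroup.zpowers (g : V ⧸ A) = ⊤ := by
    rw [eq_top_iff]
    intro y _
    obtain ⟨v, rfl⟩ := QuotientGroup.mk_surjective y
    have hv : v ∈ A ⊔ Subgroup.zpowers g := by rw [h]; trivial
    obtain ⟨a, ha, z, hz, rfl⟩ := Subgroup.mem_sup.1 hv
    obtain ⟨k, rfl⟩ := Subgroup.mem_zpowers_iff.1 hz
    rw [QuotientGroup.mk_mul, (QuotientGroup.eq_one_iff a).2 ha, one_mul]
    exact Subgroup.mem_zpowers_iff.2 ⟨k, rfl⟩
  unfold Subgroup.index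
  rw [← h2, ← Nat.card_zpowers, h3, Subgroup.card_top]

theorem t_GENA : S_GENA := by
  intro V M _ _ _ _ _ p hp hV hM hnt T hT
  have : Fact p.Prime := ⟨hp⟩
  -- elements fixed by a proper subgroup are in `T`
  have key : ∀ A : Subgroup V, A ≠ ⊤ → ∀ x : M, (∀ v ∈ A, v • x = x) → x ∈ T := by
    intro A
    induction A using WellFoundedGT.induction with
    | ind A ih =>
      intro hA x hx
      by_cases hi : A.index = p
      · exact hT A hi x hx
      -- elements fixed by `A` and by an element outside of `A`
      have step : ∀ g : V, g ∉ A → ∀ y : M, (∀ v ∈ A, v • y = y) → g • y = y → y ∈ T := by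
        intro g hg y hy hgy
        have hne : A ⊔ Subgroup.zpowers g ≠ ⊤ := fun h => hi (gena_index p hp hV A g hg h)
        have hlt : A < A ⊔ Subgroup.zpowers g := by
          refine lt_of_le_of_ne le_sup_left fun h => hg ?_
          rw [h]
          exact Subgroup.mem_sup_right (Subgroup.mem_zpowers g)
        refine ih _ hlt hne y fun v hv => ?_
        have hle : A ⊔ Subgroup.zpowers g ≤ MulAction.stabilizer V y := by
          rw [sup_le_iff]
          refine ⟨fun v hv => hy v hv, ?_⟩
          rw [Subgroup.zpowers_le]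
          exact hgy
        exact hle hv
      obtain ⟨b, hb⟩ : ∃ b, b ∉ A := by
        by_contra h
        push Not at h
        exact hA (eq_top_iff.2 fun v _ => h v)
      have hB : A ⊔ Subgroup.zpowers b ≠ ⊤ := fun h => hi (gena_index p hp hV A b hb h)
      obtain ⟨a, ha⟩ : ∃ a, a ∉ A ⊔ Subgroup.zpowers b := by
        by_contra h
        push Not at h
        exact hB (eq_top_iff.2 fun v _ => h v)
      -- norms
      have hN : ∀ g : V, g ∉ A → ∏ j ∈ range p, (g ^ j) • x ∈ T := by
        intro g hg
        refine step g hg _ (fun v hv => ?_) ?_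
        · rw [Finset.smul_prod']
          refine Finset.prod_congr rfl fun j _ => ?_
          rw [smul_smul, mul_comm, ← smul_smul, hx v hv]
        · rw [Finset.smul_prod']
          have : ∀ j ∈ range p, g • (g ^ j) • x = (g ^ (j + 1)) • x := by
            intro j _
            rw [smul_smul, pow_succ']
          rw [Finset.prod_congr rfl this]
          exact gena_shift p (fun j => (g ^ j) • x) (by simp [hV])
      have hab : ∀ i : ℕ, a * b ^ i ∉ A := by
        intro i hi'
        apply ha
        have h1 : a = (a * b ^ i) * (b ^ i)⁻¹ := by group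
        rw [h1]
        exact Subgroup.mul_mem _ (Subgroup.mem_sup_left hi')
          (Subgroup.inv_mem _ (Subgroup.pow_mem _ (Subgroup.mem_sup_right
            (Subgroup.mem_zpowers b)) i))
      have hR : ∀ j : ℕ, ∏ k ∈ range p, (a ^ j * b ^ k) • x ∈ T := by
        intro j
        refine step b hb _ (fun v hv => ?_) ?_
        · rw [Finset.smul_prod']
          refine Finset.prod_congr rfl fun k _ => ?_
          rw [smul_smul, mul_comm, ← smul_smul, hx v hv]
        · rw [Finset.smul_prod']
          have : ∀ k ∈ range p, b • (a ^ j * b ^ k) • x = (a ^ j * b ^ (k + 1)) • x := by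
            intro k _
            rw [smul_smul, mul_left_comm, ← pow_succ']
          rw [Finset.prod_congr rfl this]
          exact gena_shift p (fun k => (a ^ j * b ^ k) • x) (by simp [hV])
      obtain ⟨q, hq⟩ : ∃ q, p = q + 1 := ⟨p - 1, by have := hp.pos; omega⟩
      have hid : ∏ i ∈ range p, ∏ j ∈ range p, ((a * b ^ i) ^ j) • x =
          (∏ j ∈ range q, ∏ k ∈ range p, (a ^ (j + 1) * b ^ k) • x) * x ^ p := by
        rw [Finset.prod_comm, hq, Finset.prod_range_succ', ← hq]
        congr 1
        · refine Finset.prod_congr rfl fun j hj => ?_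
          have hjq := mem_range.1 hj
          rw [← gena_reindex p (j + 1) hp (by omega) (by omega)
            (fun k => (a ^ (j + 1) * b ^ k) • x) (fun k => ?_)]
          · refine Finset.prod_congr rfl fun i _ => ?_
            rw [mul_pow, ← pow_mul]
          · have hbk : b ^ (k % p) = b ^ k := by
              conv_rhs => rw [← Nat.div_add_mod k p, pow_add, pow_mul, hV, one_pow, one_mul]
            simp only [hbk]
        · simp
      have hxp : x ^ p ∈ T := by
        have h1 : ∏ i ∈ range p, ∏ j ∈ range p, ((a * b ^ i) ^ j) • x ∈ T :=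
          Subgroup.prod_mem _ fun i _ => hN _ (hab i)
        have h2 : ∏ j ∈ range q, ∏ k ∈ range p, (a ^ (j + 1) * b ^ k) • x ∈ T :=
          Subgroup.prod_mem _ fun j _ => hR _
        rw [hid] at h1
        exact (T.mul_mem_cancel_left h2).1 h1
      have hcop : p.Coprime (orderOf x) := by
        rw [hp.coprime_iff_not_dvd]
        exact fun h => hM (h.trans (orderOf_dvd_natCard x))
      obtain ⟨m, hm⟩ := exists_pow_eq_self_of_coprime hcop
      rw [← hm]
      exact T.pow_mem hxp m
  rw [eq_top_iff]
  intro x _
  refine key ⊥ ?_ x fun v hv => ?_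
  · exact bot_ne_top
  · rw [Subgroup.mem_bot.1 hv, one_smul]

end Pool.Agent.Run7.h676.NI
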