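import Pool.Agent.Run7.h676.NI.Iface

/-!
# Project NI, piece GPA: the abelian step
-/

set_option autoImplicit false

open scoped commutatorElement

namespace Pool.Agent.Run7.h676.NI

variable {Γ : Type} [Group Γ]

/-- conjugation on the abelianization of a normal subgroup -/
noncomputable def gpaAct (N : Subgroup Γ) [N.Normal] (g : Γ) :
    Abelianization N →* Abelianization N :=
  Abelianization.map (MulAut.conjNormal g : N ≃* N).toMonoidHom

theorem gpaAct_of (N : Subgroup Γ) [N.Normal] (g : Γ) (x : N) :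
    gpaAct N g (Abelianization.of x) = Abelianization.of (MulAut.conjNormal g x) := rfl

theorem gpaAct_mul (N : Subgroup Γ) [N.Normal] (g h : Γ) (m : Abelianization N) :
    gpaAct N (g * h) m = gpaAct N g (gpaAct N h m) := by
  obtain ⟨x, rfl⟩ : ∃ x, Abelianization.of x = m := QuotientGroup.mk_surjective m
  rw [gpaAct_of, gpaAct_of, gpaAct_of, map_mul]
  rfl

theorem gpa_core [Finite Γ] (p : ℕ) (N S V : Subgroup Γ) (hEA : EA p V) (hN : N.Normal)
    (hp : ¬ p ∣ Nat.card N) (hS : ∀ x ∈ N, ∀ y ∈ N, ⁅x, y⁆ ∈ S)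
    (hmin : ∀ c ∈ N, {v | v ∈ V ∧ v ∈ S}.ncard ≤ {v | v ∈ V ∧ c⁻¹ * v * c ∈ S}.ncard) :
    ∀ v ∈ V, v ∈ S → ∀ x ∈ N, x⁻¹ * v * x ∈ S := by
  classical
  have hprime : Fact p.Prime := ⟨hEA.prime⟩
  intro d hdV hdS x hxN
  -- the image of `N ∩ S`
  set T : Subgroup (Abelianization N) := (S.subgroupOf N).map Abelianization.of with hT
  have hTmem : ∀ n : N, Abelianization.of n ∈ T ↔ (n : Γ) ∈ S := by
    intro n
    constructor
    · rintro ⟨s, hs, hsn⟩
      have h1 : s⁻¹ * n ∈ commutator N := by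
        rw [← Abelianization.ker_of, MonoidHom.mem_ker, map_mul, map_inv, hsn, inv_mul_cancel]
      have h2 : commutator N ≤ S.subgroupOf N := by
        rw [commutator_def, Subgroup.commutator_le]
        intro a _ b _
        rw [Subgroup.mem_subgroupOf]
        exact hS a a.2 b b.2
      have h3 := h2 h1
      rw [Subgroup.mem_subgroupOf] at h3
      have h4 := S.mul_mem (Subgroup.mem_subgroupOf.1 hs) h3
      simpa using h4
    · intro h
      exact ⟨n, Subgroup.mem_subgroupOf.2 h, rfl⟩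
  -- the group `D`
  set D : Subgroup Γ := V ⊓ S with hD
  have : Fintype D := Fintype.ofFinite D
  have hDp : IsPGroup p D := by
    intro v
    refine ⟨1, ?_⟩
    rw [pow_one]
    exact Subtype.ext (hEA.exp v v.2.1)
  have hDcard : ∀ a : N, (Nat.card D).Coprime (orderOf a) := by
    intro a
    obtain ⟨k, hk⟩ := IsPGroup.iff_card.1 hDp
    rw [hk]
    apply Nat.Coprime.pow_left
    rw [hEA.prime.coprime_iff_not_dvd]
    exact fun h => hp (h.trans (orderOf_dvd_natCard a))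
  have hroot : ∀ a : N, Abelianization.of a ^ Nat.card D ∈ T → (a : Γ) ∈ S := by
    intro a ha
    rw [← map_pow, hTmem] at ha
    obtain ⟨m, hm⟩ := exists_pow_eq_self_of_coprime (hDcard a)
    rw [← hm]
    have := S.pow_mem ha m
    simpa using this
  let P : Abelianization N → Abelianization N := fun m => ∏ e : D, gpaAct N (e : Γ) m
  have hPmul : ∀ a b, P (a * b) = P a * P b := by
    intro a b
    simp only [P, map_mul, Finset.prod_mul_distrib]
  have hPinv : ∀ a, P a⁻¹ = (P a)⁻¹ := by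
    intro a
    simp only [P, map_inv, Finset.prod_inv_distrib]
  have hPd : ∀ m, ∀ d' : D, P (gpaAct N (d' : Γ) m) = P m := by
    intro m d'
    simp only [P]
    have : ∀ e : D, gpaAct N (e : Γ) (gpaAct N (d' : Γ) m) = gpaAct N ((e * d' : D) : Γ) m := by
      intro e
      rw [Subgroup.coe_mul, gpaAct_mul]
    rw [Finset.prod_congr rfl fun e _ => this e]
    exact Fintype.prod_equiv (Equiv.mulRight d') _ _ fun e => rfl
  have hPb : ∀ m, ∀ b ∈ V, P (gpaAct N b m) = gpaAct N b (P m) := by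
    intro m b hb
    simp only [P]
    rw [map_prod]
    refine Finset.prod_congr rfl fun e _ => ?_
    rw [← gpaAct_mul, ← gpaAct_mul, hEA.comm e e.2.1 b hb]
  -- a criterion
  have hcrit : ∀ a : N, P (Abelianization.of a) = 1 →
      (∀ e ∈ D, (e * a * e⁻¹) * (a : Γ)⁻¹ ∈ S) → (a : Γ) ∈ S := by
    intro a hPa ha
    apply hroot
    have h1 : ∏ e : D, (gpaAct N (e : Γ) (Abelianization.of a) * (Abelianization.of a)⁻¹) ∈ T := by
      refine Subgroup.prod_mem _ fun e _ => ?_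
      rw [gpaAct_of, ← map_inv, ← map_mul, hTmem]
      have := ha e e.2
      simpa using this
    rw [Finset.prod_mul_distrib] at h1
    have h2 : ∏ e : D, gpaAct N (e : Γ) (Abelianization.of a) = 1 := hPa
    rw [h2, one_mul, Finset.prod_const, Finset.card_univ, ← Nat.card_eq_fintype_card, inv_pow] at h1
    exact (T.inv_mem_iff).1 h1
  let dD : D := ⟨d, hdV, hdS⟩
  -- the commutator `c`
  let xN : N := ⟨x, hxN⟩
  let c : N := xN⁻¹ * MulAut.conjNormal d xN
  have hcval : (c : Γ) = x⁻¹ * (d * x * d⁻¹) := by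
    simp [c, xN]
  have hPc : P (Abelianization.of c) = 1 := by
    have : Abelianization.of c = (Abelianization.of xN)⁻¹ *
        gpaAct N (dD : Γ) (Abelianization.of xN) := by
      rw [gpaAct_of, ← map_inv, ← map_mul]
    rw [this, hPmul, hPinv, hPd, inv_mul_cancel]
  have hsub : {v | v ∈ V ∧ (c : Γ)⁻¹ * v * c ∈ S} ⊆ {v | v ∈ V ∧ v ∈ S} := by
    rintro b ⟨hbV, hbS⟩
    refine ⟨hbV, ?_⟩
    let a : N := c⁻¹ * MulAut.conjNormal b c
    have haval : (a : Γ) = (c : Γ)⁻¹ * (b * c * b⁻¹) := by simp [a]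
    have hab : (a : Γ) * b = (c : Γ)⁻¹ * b * c := by rw [haval]; group
    have hPa : P (Abelianization.of a) = 1 := by
      have : Abelianization.of a = (Abelianization.of c)⁻¹ *
          gpaAct N b (Abelianization.of c) := by
        rw [gpaAct_of, ← map_inv, ← map_mul]
      rw [this, hPmul, hPinv, hPb _ b hbV, hPc, map_one, inv_one, one_mul]
    have haS : (a : Γ) ∈ S := by
      refine hcrit a hPa fun e he => ?_
      have h1 : (a : Γ) * b ∈ S := by rw [hab]; exact hbS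
      have h2 : e * ((a : Γ) * b) * e⁻¹ ∈ S := S.mul_mem (S.mul_mem he.2 h1) (S.inv_mem he.2)
      have h3 : e * ((a : Γ) * b) * e⁻¹ = (e * a * e⁻¹) * b := by
        have hc : b * e⁻¹ = e⁻¹ * b := by
          have := hEA.comm e he.1 b hbV
          rw [eq_inv_mul_iff_mul_eq, ← mul_assoc, this, mul_assoc, mul_inv_cancel, mul_one]
        rw [mul_assoc, mul_assoc (a : Γ), hc]
        group
      rw [h3] at h2
      have h4 := S.mul_mem h2 (S.inv_mem h1)
      have h5 : e * (a : Γ) * e⁻¹ * b * ((a : Γ) * b)⁻¹ = e * a * e⁻¹ * (a : Γ)⁻¹ := by group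
      rwa [h5] at h4
    have h6 := S.mul_mem (S.inv_mem haS) (show (a : Γ) * b ∈ S by rw [hab]; exact hbS)
    simpa using h6
  have heq : {v | v ∈ V ∧ (c : Γ)⁻¹ * v * c ∈ S} = {v | v ∈ V ∧ v ∈ S} :=
    Set.eq_of_subset_of_ncard_le hsub (hmin c c.2) (Set.toFinite _)
  have hcS : (c : Γ) ∈ S := by
    refine hcrit c hPc fun e he => ?_
    have h1 : e ∈ {v | v ∈ V ∧ (c : Γ)⁻¹ * v * c ∈ S} := by
      rw [heq]; exact ⟨he.1, he.2⟩
    have h2 := S.mul_mem h1.2 (S.inv_mem he.2)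
    -- `c⁻¹ e c e⁻¹ ∈ S`, and the commutator with `c` corrects the order
    have h3 : ⁅(e * (c : Γ) * e⁻¹), (c : Γ)⁻¹⁆ ∈ S :=
      hS _ (hN.conj_mem _ c.2 e) _ (N.inv_mem c.2)
    have h4 := S.mul_mem h3 h2
    have h5 : ⁅(e * (c : Γ) * e⁻¹), (c : Γ)⁻¹⁆ * ((c : Γ)⁻¹ * e * c * e⁻¹) =
        e * c * e⁻¹ * (c : Γ)⁻¹ := by
      rw [commutatorElement_def]; group
    rwa [h5] at h4
  have hfin : x⁻¹ * d * x = (c : Γ) * d := by rw [hcval]; group
  rw [hfin]
  exact S.mul_mem hcS hdS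

theorem t_GPA : S_GPA := by
  classical
  intro Γ _ _ p N S V hEA hN hp hS
  -- choose `n` with the least number of `v`
  have hne : {k : ℕ | ∃ n ∈ N, {v | v ∈ V ∧ n⁻¹ * v * n ∈ S}.ncard = k}.Nonempty :=
    ⟨_, 1, N.one_mem, rfl⟩
  obtain ⟨n, hnN, hn⟩ := Nat.sInf_mem hne
  have hmin : ∀ m ∈ N, {v | v ∈ V ∧ n⁻¹ * v * n ∈ S}.ncard ≤
      {v | v ∈ V ∧ m⁻¹ * v * m ∈ S}.ncard := by
    intro m hm
    rw [hn]
    exact Nat.sInf_le ⟨m, hm, rfl⟩
  let S' : Subgroup Γ := S.map (MulAut.conj n).toMonoidHom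
  have hS'mem : ∀ y : Γ, y ∈ S' ↔ n⁻¹ * y * n ∈ S := by
    intro y
    constructor
    · rintro ⟨s, hs, rfl⟩
      have : n⁻¹ * (MulAut.conj n).toMonoidHom s * n = s := by
        simp [MulAut.conj_apply]
        group
      rw [this]; exact hs
    · intro h
      refine ⟨_, h, ?_⟩
      simp [MulAut.conj_apply]
      group
  have hcore := gpa_core p N S' V hEA hN hp (fun x hx y hy => by
      rw [hS'mem]
      have h := hS _ (hN.conj_mem x hx n⁻¹) _ (hN.conj_mem y hy n⁻¹)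
      have e : ⁅n⁻¹ * x * n⁻¹⁻¹, n⁻¹ * y * n⁻¹⁻¹⁆ = n⁻¹ * ⁅x, y⁆ * n := by
        rw [commutatorElement_def, commutatorElement_def]; group
      rwa [e] at h) (fun c hc => by
      have h := hmin (c * n) (N.mul_mem hc hnN)
      have e1 : {v | v ∈ V ∧ v ∈ S'} = {v | v ∈ V ∧ n⁻¹ * v * n ∈ S} := by
        ext v; simp only [Set.mem_ofPred_eq, hS'mem]
      have e2 : {v | v ∈ V ∧ c⁻¹ * v * c ∈ S'} = {v | v ∈ V ∧ (c * n)⁻¹ * v * (c * n) ∈ S} := by
        ext v
        simp only [Set.mem_ofPred_eq, hS'mem]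
        have e3 : n⁻¹ * (c⁻¹ * v * c) * n = (c * n)⁻¹ * v * (c * n) := by group
        rw [e3]
      rw [e1, e2]
      exact h)
  refine ⟨n, hnN, fun v hv hvS x hx => ?_⟩
  have h := hcore v hv ((hS'mem v).2 hvS) (x * n⁻¹) (N.mul_mem hx (N.inv_mem hnN))
  rw [hS'mem] at h
  have e : n⁻¹ * ((x * n⁻¹)⁻¹ * v * (x * n⁻¹)) * n = x⁻¹ * v * x := by group
  rwa [e] at h

end Pool.Agent.Run7.h676.NI
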