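import Pool.Agent.Run7.h676.NI.Iface

/-!
# Project NI, piece LIFT: fixed points in an invariant coset
-/

set_option autoImplicit false

open scoped commutatorElement

namespace Pool.Agent.Run7.h676.NI

theorem t_LIFT : S_LIFT := by
  intro Γ _ _ p V N hEA hN hp x hx
  have hprime : Fact p.Prime := ⟨hEA.prime⟩
  have hPG : IsPGroup p V := by
    intro v
    refine ⟨1, ?_⟩
    rw [pow_one]
    exact Subtype.ext (hEA.exp v v.2)
  let act : MulAction V N :=
    { smul := fun v n => ⟨x⁻¹ * (v * (x * n) * (v : Γ)⁻¹), by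
        have h := N.mul_mem (hx v v.2) (hN v v.2 n n.2)
        have e : x⁻¹ * (v * (x * n) * (v : Γ)⁻¹) =
            x⁻¹ * ((v : Γ) * x * (v : Γ)⁻¹) * ((v : Γ) * n * (v : Γ)⁻¹) := by group
        rw [e]; exact h⟩
      one_smul := by
        intro n
        apply Subtype.ext
        change x⁻¹ * (((1 : V) : Γ) * (x * n) * ((1 : V) : Γ)⁻¹) = n
        simp
      mul_smul := by
        intro v w n
        apply Subtype.ext
        change x⁻¹ * (((v * w : V) : Γ) * (x * n) * ((v * w : V) : Γ)⁻¹) =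
          x⁻¹ * ((v : Γ) * (x * (x⁻¹ * (w * (x * n) * (w : Γ)⁻¹))) * (v : Γ)⁻¹)
        rw [Subgroup.coe_mul]
        group }
  obtain ⟨n, hn⟩ := hPG.nonempty_fixed_point_of_prime_not_dvd_card N hp
  refine ⟨n, n.2, fun v hv => ?_⟩
  have h := congrArg Subtype.val (hn ⟨v, hv⟩)
  change x⁻¹ * (v * (x * n) * v⁻¹) = n at h
  have h2 : v * (x * n) * v⁻¹ = x * n := inv_mul_eq_iff_eq_mul.1 h
  rw [mul_inv_eq_iff_eq_mul] at h2
  exact h2

end Pool.Agent.Run7.h676.NI
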